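import Pool.Agent.FU2.Stmts

set_option autoImplicit false

namespace Pool.Agent.FU2.H82

open Pool.Agent.FUR Pool.Agent.FU2

theorem choose_ratio {k n : ℕ} (hkn : k ≤ n) (q : ℕ) :
    k.choose q * n ^ q ≤ n.choose q * k ^ q := by
  induction q with
  | zero => simp
  | succ q ih =>
    have h1 := Nat.choose_succ_right_eq k q
    have h2 := Nat.choose_succ_right_eq n q
    have h3 : (k - q) * n ≤ (n - q) * k := by
      rcases le_total k q with h | h
      · rw [Nat.sub_eq_zero_of_le h, zero_mul]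
        exact Nat.zero_le _
      · obtain ⟨a, rfl⟩ := Nat.exists_eq_add_of_le h
        obtain ⟨b, rfl⟩ := Nat.exists_eq_add_of_le hkn
        have e1 : q + a - q = a := by omega
        have e2 : q + a + b - q = a + b := by omega
        rw [e1, e2]
        nlinarith [Nat.zero_le (b * q)]
    have h4 : (q + 1) * (k.choose (q + 1) * n ^ (q + 1)) ≤
        (q + 1) * (n.choose (q + 1) * k ^ (q + 1)) := by
      calc (q + 1) * (k.choose (q + 1) * n ^ (q + 1))
          = (k.choose (q + 1) * (q + 1)) * n ^ q * n := by ring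
        _ = k.choose q * n ^ q * ((k - q) * n) := by rw [h1]; ring
        _ ≤ n.choose q * k ^ q * ((n - q) * k) := Nat.mul_le_mul ih h3
        _ = (n.choose q * (n - q)) * k ^ q * k := by ring
        _ = (q + 1) * (n.choose (q + 1) * k ^ (q + 1)) := by rw [← h2]; ring
    exact Nat.le_of_mul_le_mul_left h4 (Nat.succ_pos q)

theorem nu2 : NU2Stmt := by
  refine ⟨1 / 10 ^ 9, by norm_num, ?_⟩
  intro n s M hn hns hM
  rcases Nat.eq_zero_or_pos M with h0 | h0
  · subst h0
    refine ⟨1, 1, 1, one_pos, le_rfl, le_rfl, hn, by norm_num, ?_⟩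
    have h1 : (0 : ℝ) < 2 ^ n * (n.choose 1 : ℝ) := by
      rw [Nat.choose_one_right]
      have : (0 : ℝ) < n := by exact_mod_cast hn
      positivity
    simpa using h1
  · have hnR : (1 : ℝ) ≤ n := by exact_mod_cast hn
    have hn0 : (0 : ℝ) < n := by linarith
    have hsR : (n : ℝ) ≤ s := by exact_mod_cast hns
    have hs0 : (0 : ℝ) < s := by linarith
    have hMR : (1 : ℝ) ≤ M := by exact_mod_cast h0
    obtain ⟨X, hX⟩ : ∃ X : ℝ, X = 1 / 10 ^ 9 * (n : ℝ) ^ 2 / s := ⟨_, rfl⟩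
    rw [← hX] at hM
    have hX1 : 1 < X := by
      by_contra hno
      push Not at hno
      have h1 : (2 : ℝ) ^ X ≤ 2 ^ (1 : ℝ) := Real.rpow_le_rpow_of_exponent_le (by norm_num) hno
      rw [Real.rpow_one] at h1
      linarith
    have hXs : X * s = 1 / 10 ^ 9 * (n : ℝ) ^ 2 := by
      rw [hX]
      field_simp
    obtain ⟨q, hq⟩ : ∃ q : ℕ, q = ⌊10 * X⌋₊ := ⟨_, rfl⟩
    have hq1 : (q : ℝ) ≤ 10 * X := by
      rw [hq]
      exact Nat.floor_le (by linarith)
    have hq2 : 10 * X - 1 < q := by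
      rw [hq]
      exact Nat.sub_one_lt_floor _
    have hq9 : 9 * X < q := by linarith
    have hqpos : (0 : ℝ) < q := by linarith
    have hq1' : 1 ≤ q := by
      have : (0 : ℝ) < (q : ℝ) := hqpos
      exact_mod_cast this
    have hqs : (q : ℝ) * s ≤ 1 / 10 ^ 8 * (n : ℝ) ^ 2 := by
      have h1 := mul_le_mul_of_nonneg_right hq1 hs0.le
      have h2 : 10 * X * s = 10 * (X * s) := by ring
      rw [h2, hXs] at h1
      linarith
    have hkn : 5 * q ≤ n := by
      have h1 : (5 * (q : ℝ)) * s ≤ n * s := by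
        have h2 : (n : ℝ) ^ 2 ≤ n * s := by nlinarith
        nlinarith
      have h3 : 5 * (q : ℝ) ≤ n := le_of_mul_le_mul_right h1 hs0
      exact_mod_cast h3
    obtain ⟨κ, hκ⟩ : ∃ κ : ℝ, κ = Real.sqrt (q / (2 * s)) := ⟨_, rfl⟩
    have hκ0 : 0 < κ := by
      rw [hκ]
      exact Real.sqrt_pos.2 (by positivity)
    have hκ2 : κ ^ 2 = q / (2 * s) := by
      rw [hκ]
      exact Real.sq_sqrt (by positivity)
    have hκs : κ ^ 2 * s = q * (1 / 2) := by
      rw [hκ2]
      field_simp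
    refine ⟨q, 5 * q, κ, hκ0, hq1', by omega, hkn, by omega, ?_⟩
    -- the base
    obtain ⟨b, hb⟩ : ∃ b : ℝ, b = 32 * ((5 * q : ℝ) / n) * (2 / κ) * Real.exp (1 / 2) := ⟨_, rfl⟩
    have hb0 : 0 ≤ b := by
      rw [hb]
      positivity
    have hb2 : b ^ 2 ≤ (1 / 4) ^ 2 := by
      have e1 : Real.exp (1 / 2) ^ 2 = Real.exp 1 := by
        rw [← Real.exp_nat_mul]
        norm_num
      have e2 : b ^ 2 = 204800 * Real.exp 1 * ((q * s) / (n : ℝ) ^ 2) := by
        rw [hb, mul_pow, mul_pow, mul_pow, e1, div_pow 2 κ, hκ2]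
        field_simp
        ring
      have e3 : ((q : ℝ) * s) / (n : ℝ) ^ 2 ≤ 1 / 10 ^ 8 := by
        rw [div_le_iff₀ (by positivity)]
        exact hqs
      have e4 : Real.exp 1 < 2.7182818286 := Real.exp_one_lt_d9
      have e5 : 0 < Real.exp 1 := Real.exp_pos 1
      rw [e2]
      have e6 : 204800 * Real.exp 1 * ((q * s) / (n : ℝ) ^ 2) ≤
          204800 * Real.exp 1 * (1 / 10 ^ 8) :=
        mul_le_mul_of_nonneg_left e3 (by positivity)
      have e7 : 204800 * Real.exp 1 * (1 / 10 ^ 8 : ℝ) ≤ 204800 * 2.7182818286 * (1 / 10 ^ 8) := by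
        gcongr
      refine e6.trans (e7.trans ?_)
      norm_num
    have hb4 : b ≤ 1 / 4 := by
      by_contra hno
      push Not at hno
      nlinarith
    -- the number of tests
    have hM4 : 3 * (M : ℝ) < 4 ^ q := by
      have h1 : (4 : ℝ) ^ q = 2 ^ ((2 * q : ℕ) : ℝ) := by
        rw [Real.rpow_natCast, pow_mul]
        norm_num
      have h2 : (2 : ℝ) ^ (X + 1) ≤ 2 ^ ((2 * q : ℕ) : ℝ) := by
        apply Real.rpow_le_rpow_of_exponent_le (by norm_num)
        push_cast
        linarith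
      have h3 : (2 : ℝ) ^ (X + 1) = 2 * 2 ^ X := by
        rw [Real.rpow_add (by norm_num), Real.rpow_one]
        ring
      rw [h1]
      linarith
    have hMb : 3 * (M : ℝ) * b ^ q < 1 := by
      have h1 : b ^ q ≤ (1 / 4) ^ q := pow_le_pow_left₀ hb0 hb4 q
      have h2 : 3 * (M : ℝ) * b ^ q ≤ 3 * M * (1 / 4) ^ q :=
        mul_le_mul_of_nonneg_left h1 (by positivity)
      have h3 : 3 * (M : ℝ) * (1 / 4) ^ q < 4 ^ q * (1 / 4) ^ q :=
        mul_lt_mul_of_pos_right hM4 (by positivity)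
      have h4 : (4 : ℝ) ^ q * (1 / 4) ^ q = 1 := by
        rw [← mul_pow]
        norm_num
      rw [h4] at h3
      exact lt_of_le_of_lt h2 h3
    -- the binomial coefficients
    have hch : ((5 * q).choose q : ℝ) ≤ (n.choose q : ℝ) * ((5 * q : ℝ) / n) ^ q := by
      have h1 : (((5 * q).choose q * n ^ q : ℕ) : ℝ) ≤ ((n.choose q * (5 * q) ^ q : ℕ) : ℝ) :=
        by exact_mod_cast choose_ratio hkn q
      push_cast at h1
      rw [div_pow, ← mul_div_assoc, le_div_iff₀ (by positivity)]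
      exact h1
    have hnc : (0 : ℝ) < n.choose q := by
      have : 0 < n.choose q := Nat.choose_pos (by omega)
      exact_mod_cast this
    have hexp : (2 / κ) ^ q * Real.exp (κ ^ 2 * s) = (2 / κ * Real.exp (1 / 2)) ^ q := by
      rw [hκs, mul_pow, ← Real.exp_nat_mul]
    have h32 : (2 : ℝ) ^ (5 * q) = 32 ^ q := by
      rw [pow_mul]
      norm_num
    rw [hexp, h32]
    have hA : 0 ≤ (32 : ℝ) ^ q * (3 * (M : ℝ) * (2 / κ * Real.exp (1 / 2)) ^ q) := by positivity
    calc (32 : ℝ) ^ q * ((5 * q).choose q : ℝ) *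
          ((3 * M) * (2 ^ n * (2 / κ * Real.exp (1 / 2)) ^ q))
        = 2 ^ n * (((5 * q).choose q : ℝ) *
          ((32 : ℝ) ^ q * (3 * (M : ℝ) * (2 / κ * Real.exp (1 / 2)) ^ q))) := by ring
      _ ≤ 2 ^ n * ((n.choose q : ℝ) * ((5 * q : ℝ) / n) ^ q *
          ((32 : ℝ) ^ q * (3 * (M : ℝ) * (2 / κ * Real.exp (1 / 2)) ^ q))) := by
          apply mul_le_mul_of_nonneg_left _ (by positivity)
          exact mul_le_mul_of_nonneg_right hch hA
      _ = 2 ^ n * (n.choose q : ℝ) * (3 * (M : ℝ) * b ^ q) := by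
          rw [hb]
          have e : (32 * ((5 * q : ℝ) / n) * (2 / κ) * Real.exp (1 / 2)) ^ q =
              ((5 * q : ℝ) / n) ^ q * ((32 : ℝ) ^ q * (2 / κ * Real.exp (1 / 2)) ^ q) := by
            rw [← mul_pow, ← mul_pow]
            congr 1
            ring
          rw [e]
          ring
      _ < 2 ^ n * (n.choose q : ℝ) * 1 := mul_lt_mul_of_pos_left hMb (by positivity)
      _ = 2 ^ n * (n.choose q : ℝ) := mul_one _

end Pool.Agent.FU2.H82
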